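import Pool.Agent.N926.F37.G
import Pool.Agent.N926.Sup2.Cg

set_option autoImplicit false

namespace Pool.Agent.Results.MP_37e900_nt.BothQuestions

open Finset

/-- `r ≡ s (mod p^m)`: `r - s = p^m u` with `u` a rational whose denominator is prime to `p` -/
def Congr (p m : ℕ) (r s : ℚ) : Prop := ∃ u : ℚ, ¬ p ∣ u.den ∧ r - s = (p : ℚ) ^ m * u

/-- `U_p(m) = ∑_{k=0}^{p-1} m^{-k} C(4k,2k) C(2k,k)` -/
def U (p : ℕ) (m : ℚ) : ℚ :=
  ∑ k ∈ range p, ((4 * k).choose (2 * k) : ℚ) * ((2 * k).choose k : ℚ) / m ^ k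

/-- `V_p(m) = ∑_{k=0}^{p-1} k m^{-k} C(4k,2k) C(2k,k)` -/
def V (p : ℕ) (m : ℚ) : ℚ :=
  ∑ k ∈ range p, (k : ℚ) * (((4 * k).choose (2 * k) : ℚ) * ((2 * k).choose k : ℚ) / m ^ k)

/-- `A_p = ∑_{k=0}^{p-1} 48^{-k} C(4k,2k+1) C(2k,k)` -/
def A (p : ℕ) : ℚ :=
  ∑ k ∈ range p, ((4 * k).choose (2 * k + 1) : ℚ) * ((2 * k).choose k : ℚ) / 48 ^ k

/-- `S_p = U_p(48)` -/
def S (p : ℕ) : ℚ := U p 48

/-- `T_p = U_p(48) + V_p(48)` -/
def T (p : ℕ) : ℚ := U p 48 + V p 48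

open Pool.Agent.N926.F54 Pool.Agent.N926.F37 Pool.Agent.N926.Sup2

theorem S_eq (p : ℕ) : S p = SS p := by
  unfold S U SS
  exact sum_congr rfl fun k _ => (tm_half k).symm

theorem T_eq (p : ℕ) : T p = TT p := by
  unfold T U V TT
  rw [← sum_add_distrib]
  refine sum_congr rfl fun k _ => ?_
  rw [tm_half]
  ring

/-- **Q1 and Q2 (a), (b)** hold for every prime `p > 3`. -/
theorem result (p : ℕ) [Fact p.Prime] (p3 : 3 < p) :
    -- Q1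
    Congr p 2 (A p) 0 ∧
    -- Q2 (a)
    (p % 3 = 1 → (∃ x y : ℤ, (p : ℤ) = x ^ 2 + 3 * y ^ 2 ∧ x % 3 = 1) ∧
      ∀ x y : ℤ, (p : ℤ) = x ^ 2 + 3 * y ^ 2 → x % 3 = 1 →
        Congr p 2 (S p) (2 * (x : ℚ) - p / (2 * (x : ℚ))) ∧ Congr p 2 (T p) x) ∧
    -- Q2 (b)
    (p % 3 = 2 → Congr p 2 (S p) (3 * (p : ℚ) / (2 * (((p + 1) / 2).choose ((p + 1) / 6) : ℚ)))) := by
  have hp : p.Prime := Fact.out
  have h2 : p ≠ 2 := by omega
  have h3 : p ≠ 3 := by omega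
  have hodd : p % 2 = 1 := hp.eq_two_or_odd.resolve_left h2
  refine ⟨?_, ?_, ?_⟩
  · refine congr_of_Dv (Dv_eq ?_ (AA_main (p := p) h2 h3))
    rw [sub_zero]
    rfl
  · intro h
    obtain ⟨i, hi⟩ : ∃ i, p = 6*i+1 := ⟨p/6, by omega⟩
    have i1 : 1 ≤ i := by omega
    refine ⟨?_, ?_⟩
    · obtain ⟨X, Y, -, hXY⟩ := rep p hi i1
      have hX : X % 3 = 1 ∨ X % 3 = 2 := by
        have h0 : X % 3 ≠ 0 := by
          intro h0
          obtain ⟨c, hc⟩ : (3:ℤ) ∣ X := Int.dvd_of_emod_eq_zero h0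
          have : (3:ℤ) ∣ p := ⟨3*c^2 + Y^2, by rw [← hXY, hc]; ring⟩
          have h4 : (3:ℕ) ∣ p := by exact_mod_cast this
          omega
        omega
      rcases hX with hX | hX
      · exact ⟨X, Y, hXY.symm, hX⟩
      · exact ⟨-X, Y, by rw [← hXY]; ring, by omega⟩
    · intro x y hxy hx
      refine ⟨?_, ?_⟩
      · rw [S_eq]
        exact congr_of_Dv (S_main h2 h3 hi i1 hxy.symm hx)
      · rw [T_eq]
        exact congr_of_Dv (T_main h2 h3 hi i1 hxy.symm hx)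
  · intro h
    obtain ⟨i, hi⟩ : ∃ i, p = 6*i+5 := ⟨p/6, by omega⟩
    have e1 : (p+1)/2 = 3*i+3 := by omega
    have e2 : (p+1)/6 = i+1 := by omega
    rw [S_eq, e1, e2]
    exact congr_of_Dv (S_five h2 h3 hi)

end Pool.Agent.Results.MP_37e900_nt.BothQuestions
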